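import Pool.Agent.H37.IS.Stm2

set_option autoImplicit false

namespace H37.IS

open Finset

lemma hbd_num {p s N : ℕ} (hp : 4 ≤ p) (hs : 1 ≤ s) (hN : N < 2 ^ p) :
    (2 ^ p) ^ s * 2 ^ s * (2 * (N + 1)) * (3 ^ (9 * p * s) * 2 ^ s) ≤ 4 ^ (9 * p * s) := by
  have h1 : 2 * (N + 1) ≤ (2 ^ (p + 1)) ^ s := by
    calc 2 * (N + 1) ≤ 2 * 2 ^ p := by omega
      _ = (2 ^ (p + 1)) ^ 1 := by rw [pow_one, pow_succ]; ring
      _ ≤ (2 ^ (p + 1)) ^ s := Nat.pow_le_pow_right (by positivity) hs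
  have h2 : 8 * 4 ^ p ≤ 13 ^ p := by
    obtain ⟨r, rfl⟩ : ∃ r, p = r + 4 := ⟨p - 4, by omega⟩
    calc 8 * 4 ^ (r + 4) = 4 ^ r * (8 * 4 ^ 4) := by rw [pow_add]; ring
      _ ≤ 13 ^ r * 13 ^ 4 := Nat.mul_le_mul (Nat.pow_le_pow_left (by norm_num) r) (by norm_num)
      _ = 13 ^ (r + 4) := by rw [pow_add]
  calc (2 ^ p) ^ s * 2 ^ s * (2 * (N + 1)) * (3 ^ (9 * p * s) * 2 ^ s)
      ≤ (2 ^ p) ^ s * 2 ^ s * (2 ^ (p + 1)) ^ s * (3 ^ (9 * p * s) * 2 ^ s) := by gcongr
    _ = (8 * 4 ^ p) ^ s * (3 ^ 9) ^ (p * s) := by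
        have e1 : (2 : ℕ) ^ (p + 1) = 2 * 2 ^ p := by rw [pow_succ]; ring
        have e2 : (4 : ℕ) ^ p = 2 ^ p * 2 ^ p := by
          rw [← mul_pow]; norm_num
        have e3 : (3 : ℕ) ^ (9 * p * s) = (3 ^ 9) ^ (p * s) := by
          rw [← pow_mul]; congr 1; ring
        rw [e1, e2, e3]
        have e4 : (8 : ℕ) * (2 ^ p * 2 ^ p) = 2 ^ p * 2 * (2 * 2 ^ p) * 2 := by ring
        rw [e4, mul_pow, mul_pow, mul_pow]
        ring
    _ ≤ (13 ^ p) ^ s * (3 ^ 9) ^ (p * s) := by gcongr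
    _ = (13 * 3 ^ 9) ^ (p * s) := by rw [← pow_mul, mul_pow]
    _ ≤ (4 ^ 9) ^ (p * s) := Nat.pow_le_pow_left (by norm_num) _
    _ = 4 ^ (9 * p * s) := by rw [← pow_mul]; congr 1; ring

lemma hbd_geo (c : ℕ) : ∑ j ∈ Icc 1 c, (1 / 2 : ℝ) ^ j ≤ 1 := by
  have : ∑ j ∈ Icc 1 c, (1 / 2 : ℝ) ^ j = 1 - (1 / 2 : ℝ) ^ c := by
    induction c with
    | zero => simp
    | succ c ih =>
      rw [Finset.sum_Icc_succ_top (by omega), ih]
      ring
  rw [this]
  have : (0 : ℝ) ≤ (1 / 2 : ℝ) ^ c := by positivity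
  linarith

theorem HBD_proved (h2 : S_BA2) (h5 : S_BA5) : S_HBD := by
  intro ι _ F N c a s i0 hF k p hH hk1 hk2
  obtain ⟨hp, hN, hc, hpc, hai⟩ := hH
  have hbig : 6 * c + 6 * p + 2 ≤ N := by
    have : 6 * c + 6 * p + 2 ≤ 9 * p * c := by nlinarith
    omega
  have hone : ∀ i ∈ F.erase i0, (2 ^ p) ^ (s i) * 2 ^ (s i) * (2 * (N + 1)) *
      ch (N - a i) k (s i) ≤ N.choose k := by
    intro i hi
    have hiF := (mem_erase.1 hi).2
    have hine := (mem_erase.1 hi).1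
    have hs1 : 1 ≤ s i := by
      by_contra h
      exact hine (hF.huniq i hiF (by omega))
    have hsc := hF.hs i hiF
    have hT : 9 * p * s i ≤ a i := hai i hiF
    have haN := hF.ha i hiF
    have hks : s i ≤ k := by omega
    have e1 : ch (N - a i) k (s i) ≤ (N - 9 * p * s i).choose (k - s i) := by
      unfold ch
      rw [if_pos hks]
      exact Nat.choose_le_choose _ (by omega)
    have e2 := h2 N (9 * p * s i) (k - s i) (by omega) (by omega)
    have e3 := h5.1 N k (k - s i) (by omega) (by omega)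
    have e4 : k - (k - s i) = s i := by omega
    rw [e4] at e3
    have e5 : 4 ^ (9 * p * s i) * ch (N - a i) k (s i) ≤
        3 ^ (9 * p * s i) * 2 ^ (s i) * N.choose k := by
      calc 4 ^ (9 * p * s i) * ch (N - a i) k (s i)
          ≤ 4 ^ (9 * p * s i) * (N - 9 * p * s i).choose (k - s i) := Nat.mul_le_mul_left _ e1
        _ ≤ 3 ^ (9 * p * s i) * N.choose (k - s i) := e2
        _ ≤ 3 ^ (9 * p * s i) * (2 ^ (s i) * N.choose k) := Nat.mul_le_mul_left _ e3
        _ = 3 ^ (9 * p * s i) * 2 ^ (s i) * N.choose k := by ring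
    have e6 := hbd_num hp hs1 hN
    have hpos : 0 < 4 ^ (9 * p * s i) := by positivity
    refine Nat.le_of_mul_le_mul_left ?_ hpos
    calc 4 ^ (9 * p * s i) * ((2 ^ p) ^ (s i) * 2 ^ (s i) * (2 * (N + 1)) * ch (N - a i) k (s i))
        = ((2 ^ p) ^ (s i) * 2 ^ (s i) * (2 * (N + 1))) *
          (4 ^ (9 * p * s i) * ch (N - a i) k (s i)) := by ring
      _ ≤ ((2 ^ p) ^ (s i) * 2 ^ (s i) * (2 * (N + 1))) *
          (3 ^ (9 * p * s i) * 2 ^ (s i) * N.choose k) := Nat.mul_le_mul_left _ e5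
      _ = ((2 ^ p) ^ (s i) * 2 ^ (s i) * (2 * (N + 1)) * (3 ^ (9 * p * s i) * 2 ^ (s i))) *
          N.choose k := by ring
      _ ≤ 4 ^ (9 * p * s i) * N.choose k := Nat.mul_le_mul_right _ e6
  have hmaps : ∀ i ∈ F.erase i0, s i ∈ Icc 1 c := by
    intro i hi
    have hiF := (mem_erase.1 hi).2
    have hine := (mem_erase.1 hi).1
    rw [mem_Icc]
    refine ⟨?_, hF.hs i hiF⟩
    by_contra h
    exact hine (hF.huniq i hiF (by omega))
  have hC0 : (0 : ℝ) ≤ (N.choose k : ℝ) := Nat.cast_nonneg _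
  have hreal : (2 * ((N : ℝ) + 1)) * ∑ i ∈ F.erase i0, (ch (N - a i) k (s i) : ℝ) ≤
      (N.choose k : ℝ) := by
    rw [mul_sum, ← sum_fiberwise_of_maps_to hmaps]
    calc ∑ j ∈ Icc 1 c, ∑ i ∈ (F.erase i0).filter (fun i => s i = j),
          2 * ((N : ℝ) + 1) * (ch (N - a i) k (s i) : ℝ)
        ≤ ∑ j ∈ Icc 1 c, (N.choose k : ℝ) * (1 / 2 : ℝ) ^ j := by
          refine sum_le_sum fun j hj => ?_
          have hD : (0 : ℝ) < (2 ^ p) ^ j * 2 ^ j := by positivity
          have h1 : ∀ i ∈ (F.erase i0).filter (fun i => s i = j),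
              2 * ((N : ℝ) + 1) * (ch (N - a i) k (s i) : ℝ) ≤
                (N.choose k : ℝ) / ((2 ^ p) ^ j * 2 ^ j) := by
            intro i hi
            rw [mem_filter] at hi
            have h3 := hone i hi.1
            rw [hi.2] at h3 ⊢
            rw [le_div_iff₀ hD]
            have h4 : (((2 ^ p) ^ j * 2 ^ j * (2 * (N + 1)) * ch (N - a i) k j : ℕ) : ℝ) ≤
                (N.choose k : ℝ) := by exact_mod_cast h3
            push_cast at h4
            linarith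
          refine (sum_le_sum h1).trans ?_
          rw [sum_const, nsmul_eq_mul]
          have h5 : ((F.erase i0).filter (fun i => s i = j)).card ≤ (2 ^ p) ^ j := by
            calc ((F.erase i0).filter (fun i => s i = j)).card
                ≤ (F.filter (fun i => s i = j)).card :=
                  card_le_card (filter_subset_filter _ (erase_subset _ _))
              _ ≤ c.choose j := hF.hcount j
              _ ≤ c ^ j := Nat.choose_le_pow c j
              _ ≤ (2 ^ p) ^ j := Nat.pow_le_pow_left (by omega) j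
          have h6 : (((F.erase i0).filter (fun i => s i = j)).card : ℝ) ≤ (2 ^ p) ^ j := by
            exact_mod_cast h5
          calc (((F.erase i0).filter (fun i => s i = j)).card : ℝ) *
                ((N.choose k : ℝ) / ((2 ^ p) ^ j * 2 ^ j))
              ≤ (2 ^ p) ^ j * ((N.choose k : ℝ) / ((2 ^ p) ^ j * 2 ^ j)) := by gcongr
            _ = (N.choose k : ℝ) * (1 / 2 : ℝ) ^ j := by
                rw [one_div, inv_pow]
                field_simp
      _ = (N.choose k : ℝ) * ∑ j ∈ Icc 1 c, (1 / 2 : ℝ) ^ j := by rw [mul_sum]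
      _ ≤ (N.choose k : ℝ) * 1 := mul_le_mul_of_nonneg_left (hbd_geo c) hC0
      _ = (N.choose k : ℝ) := mul_one _
  have : ((2 * (N + 1) * ∑ i ∈ F.erase i0, ch (N - a i) k (s i) : ℕ) : ℝ) ≤
      (N.choose k : ℝ) := by
    push_cast
    exact hreal
  exact_mod_cast this

end H37.IS
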