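import Pool.Agent.H37.IS.Stm3

set_option autoImplicit false

namespace H37.IS

open N36365310

theorem DBA_ml (t Z B : ℝ) (ht : 0 ≤ t) (h : t ≠ 0 → |Z| ≤ B) : |t * Z| ≤ t * B := by
  by_cases h0 : t = 0
  · subst h0; simp
  · rw [abs_mul, abs_of_nonneg ht]
    exact mul_le_mul_of_nonneg_left (h h0) ht

theorem DBA_key (b cu cv p p' X0 X1 Y0 Y1 : ℝ) (hp0 : 0 ≤ p) (hp1 : p ≤ 1) (hq0 : 0 ≤ p')
    (hq1 : p' ≤ 1) (h1 : p' ≠ 0 → |Y1 - X1| ≤ b * cu) (h0 : |Y0 - X0| ≤ b * cu)
    (hX : p ≠ 0 → |X1 - X0| ≤ b * cv) (hY : p' ≠ 0 → |Y1 - Y0| ≤ b * cv) :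
    |(p' * Y1 + (1 - p') * Y0) - (p * X1 + (1 - p) * X0)| ≤ b * cu + b * (|p - p'| * cv) := by
  rcases le_total p' p with h | h
  · have a1 := DBA_ml p' (Y1 - X1) (b * cu) hq0 h1
    have a2 := DBA_ml (1 - p) (Y0 - X0) (b * cu) (by linarith) (fun _ => h0)
    have a3 := DBA_ml (p - p') (Y0 - X0) (b * cu) (by linarith) (fun _ => h0)
    have a4 := DBA_ml (p - p') (X1 - X0) (b * cv) (by linarith) (fun hne => hX (by
      intro hp; apply hne; linarith))
    rw [abs_of_nonneg (show 0 ≤ p - p' by linarith)]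
    rw [abs_le] at a1 a2 a3 a4 ⊢
    constructor
    · nlinarith [a1.1, a1.2, a2.1, a2.2, a3.1, a3.2, a4.1, a4.2]
    · nlinarith [a1.1, a1.2, a2.1, a2.2, a3.1, a3.2, a4.1, a4.2]
  · have a1 := DBA_ml p (Y1 - X1) (b * cu) hp0 (fun hne => h1 (by
      intro hq; apply hne; linarith))
    have a2 := DBA_ml (1 - p') (Y0 - X0) (b * cu) (by linarith) (fun _ => h0)
    have a3 := DBA_ml (p' - p) (Y0 - X0) (b * cu) (by linarith) (fun _ => h0)
    have a4 := DBA_ml (p' - p) (Y1 - Y0) (b * cv) (by linarith) (fun hne => hY (by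
      intro hq; apply hne; linarith))
    rw [abs_of_nonpos (show p - p' ≤ 0 by linarith)]
    rw [abs_le] at a1 a2 a3 a4 ⊢
    constructor
    · nlinarith [a1.1, a1.2, a2.1, a2.2, a3.1, a3.2, a4.1, a4.2]
    · nlinarith [a1.1, a1.2, a2.1, a2.2, a3.1, a3.2, a4.1, a4.2]

theorem DBA_proved : S_DBA := by
  intro H _ _ _ Om w q c hD g b hb hg S u huS hS'
  have hn : (0 : ℝ) < Fintype.card H := by exact_mod_cast Fintype.card_pos
  -- the terms
  have hterm : ∀ v ∈ Finset.univ.erase u,
      |(q v ((insert u S).erase v) * g (insert v (insert u S)) +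
          (1 - q v ((insert u S).erase v)) * g ((insert u S).erase v)) -
        (q v (S.erase v) * g (insert v S) + (1 - q v (S.erase v)) * g (S.erase v))| ≤
      b * c u + b * (|q v (S.erase v) - q v ((insert u S).erase v)| * c v) := by
    intro v hv
    have hvu : v ≠ u := (Finset.mem_erase.1 hv).1
    have e1 : (insert u S).erase v = insert u (S.erase v) :=
      Finset.erase_insert_of_ne (Ne.symm hvu)
    have e2 : insert v (insert u S) = insert u (insert v (S.erase v)) := by
      ext x; simp only [Finset.mem_insert, Finset.mem_erase]; tauto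
    have e3 : insert v S = insert v (S.erase v) := by
      ext x; simp only [Finset.mem_insert, Finset.mem_erase]; tauto
    have e4 : insert u (insert v (S.erase v)) = insert v (insert u (S.erase v)) :=
      Finset.insert_comm _ _ _
    have hvA : v ∉ S.erase v := Finset.notMem_erase _ _
    have huA : u ∉ S.erase v := fun h => huS (Finset.mem_of_mem_erase h)
    have hvA' : v ∉ insert u (S.erase v) := by
      rw [Finset.mem_insert]; push Not; exact ⟨hvu, hvA⟩
    have huA' : u ∉ insert v (S.erase v) := by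
      rw [Finset.mem_insert]; push Not; exact ⟨Ne.symm hvu, huA⟩
    have hA'Om : insert u (S.erase v) ∈ Om :=
      hD.down _ hS' _ (Finset.insert_subset_insert _ (Finset.erase_subset _ _))
    have hAOm : S.erase v ∈ Om :=
      hD.down _ hA'Om _ (Finset.subset_insert _ _)
    rw [e1, e2, e3]
    have hp := hD.q01 v (S.erase v)
    have hp' := hD.q01 v (insert u (S.erase v))
    have in' : q v (insert u (S.erase v)) ≠ 0 → insert v (insert u (S.erase v)) ∈ Om := by
      intro h; by_contra hc; exact h (hD.qz v _ hvA' hA'Om hc)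
    have in0 : q v (S.erase v) ≠ 0 → insert v (S.erase v) ∈ Om := by
      intro h; by_contra hc; exact h (hD.qz v _ hvA hAOm hc)
    refine DBA_key b (c u) (c v) _ _ _ _ _ _ hp.1 hp.2 hp'.1 hp'.2 ?_ ?_ ?_ ?_
    · intro h
      exact hg _ u huA' (by rw [e4]; exact in' h)
    · exact hg _ u huA hA'Om
    · intro h
      exact hg _ v hvA (in0 h)
    · intro h
      rw [e4]
      exact hg _ v hvA' (in' h)
  have hu : (q u ((insert u S).erase u) * g (insert u (insert u S)) +
          (1 - q u ((insert u S).erase u)) * g ((insert u S).erase u)) -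
        (q u (S.erase u) * g (insert u S) + (1 - q u (S.erase u)) * g (S.erase u)) = 0 := by
    rw [Finset.erase_insert huS, Finset.erase_eq_of_notMem huS, Finset.insert_idem]
    ring
  have hsum : |∑ v : H, ((q v ((insert u S).erase v) * g (insert v (insert u S)) +
          (1 - q v ((insert u S).erase v)) * g ((insert u S).erase v)) -
        (q v (S.erase v) * g (insert v S) + (1 - q v (S.erase v)) * g (S.erase v)))| ≤
      ((Fintype.card H : ℝ) - 1) * (b * c u) + b * (c u / 2) := by
    rw [← Finset.add_sum_erase _ _ (Finset.mem_univ u), hu, zero_add]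
    refine (Finset.abs_sum_le_sum_abs _ _).trans ((Finset.sum_le_sum hterm).trans ?_)
    rw [Finset.sum_add_distrib, Finset.sum_const, Finset.card_erase_of_mem (Finset.mem_univ u),
      Finset.card_univ, ← Finset.mul_sum, nsmul_eq_mul, Nat.cast_sub Fintype.card_pos, Nat.cast_one]
    have := hD.infl u S huS hS'
    gcongr
  unfold Pst
  rw [← sub_div, ← Finset.sum_sub_distrib, abs_div, abs_of_pos hn, div_le_iff₀ hn]
  refine hsum.trans (le_of_eq ?_)
  field_simp
  ring

end H37.IS
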